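import Pool.Agent.Lib_helper5.P7.Use
import Pool.Agent.Lib_helper5.P7.Par
import Pool.Agent.Lib_helper4.S7.Code

/-!
Period seven, the prime 13: normalisation of the third form of a point up to sign.
-/

namespace Pool.Agent.Lib_helper84.P7

open Finset Pool.Agent.Lib_helper5 Pool.Agent.Lib_helper5.LK Pool.Agent.Lib_helper5.TB
  Pool.Agent.LibH4 Pool.Agent.LibH4.Ker Pool.Agent.LibH4.T6 Pool.Agent.LibH4.KF
  Pool.Agent.LibH4.S7

/-- the normalised third forms modulo 13, up to sign -/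
def GR : List (ℕ × ℕ) := [(0,2),(0,5),(0,6),(0,7),(0,8),(0,11),
  (1,2),(1,3),(1,4),(1,5),(1,8),(1,12),
  (2,3),(2,6),(2,7),(2,8),(2,9),(2,12),
  (3,1),(3,4),(3,5),(3,6),(3,7),(3,10),
  (4,2),(4,6),(4,9),(4,10),(4,11),(4,12),
  (5,1),(5,5),(5,8),(5,9),(5,10),(5,11),
  (6,1),(6,2),(6,3),(6,4),(6,7),(6,11)]

/-- the third form of a point is `(1, R, S)` up to scaling -/
def G13 (R S : ℕ) (a b B m : ℤ) : Prop :=
  rs 13 m ≠ 0 ∧ rs 13 (r2 a B m) = R * rs 13 m % 13 ∧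
    rs 13 (-y2 a B m) = S * rs 13 m % 13 ∧ (R = 0 → rs 13 b ≤ 6)

lemma GR_split : ∀ x ∈ F13, (x.1 = 0 ∧ x ∈ GR) ∨ (0 < x.1 ∧ x.1 ≤ 6 ∧ x ∈ GR) ∨
    (7 ≤ x.1 ∧ x.1 < 13 ∧ (13 - x.1, x.2) ∈ GR) := by
  decide +kernel

lemma rs_neg13 (x : ℤ) (h : 7 ≤ rs 13 x) : rs 13 (-x) ≤ 6 := by
  have h1 : rs 13 x < 13 := rs_lt x
  have h2 : (13 - rs 13 x) % 13 = rs 13 (-x) := by
    apply rs_of
    rw [Nat.cast_sub h1.le, rs_cast, ZMod.natCast_self]
    push_cast; ring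
  omega

/-- normalisation of the third form modulo 13 -/
theorem norm13 {Q : ℕ} {a b c B m : ℤ} (H : Sys Q a b c B m) (hQ : 13 ∣ Q) :
    (∃ g ∈ GR, G13 g.1 g.2 a b B m) ∨ (∃ g ∈ GR, G13 g.1 g.2 (-a) (-b) (-B) m) := by
  have hA : adP 13 (rs 13 m) (rs 13 (r2 a B m)) (rs 13 (-y2 a B m)) = true :=
    adP_of H (by norm_num) (by norm_num) hQ ⟨m, r2 a B m, -y2 a B m, 6, -(2 * b)⟩
      (by simp [J7])
  obtain ⟨h1, h2⟩ := comp13.ok _ _ _ (rs_lt m) (rs_lt (r2 a B m)) (rs_lt (-y2 a B m)) hA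
  have h3 := List.mem_of_getElem? h2
  set P := rs 13 m with hP
  set i := iv 13 11 P with hi
  have hP0 : P ≠ 0 := by
    intro h0
    rw [h0] at h1
    simp at h1
  have h1' : ((P : ℕ) : ZMod 13) * ((i : ℕ) : ZMod 13) = 1 := by
    have := congrArg (fun n : ℕ => (n : ZMod 13)) h1
    simp only [ZMod.natCast_mod, Nat.cast_mul, Nat.cast_one] at this
    exact this
  have key : ∀ x : ℤ, (rs 13 x * i % 13) * P % 13 = rs 13 x := by
    intro x
    apply rs_of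
    rw [Nat.cast_mul, ZMod.natCast_mod, Nat.cast_mul, rs_cast]
    linear_combination ((x : ℤ) : ZMod 13) * h1'
  have kR := key (r2 a B m)
  have kS := key (-y2 a B m)
  rcases GR_split _ h3 with ⟨e, g⟩ | ⟨e1, e2, g⟩ | ⟨e1, e2, g⟩
  · by_cases hb : rs 13 b ≤ 6
    · exact Or.inl ⟨_, g, hP0, kR.symm, kS.symm, fun _ => hb⟩
    · refine Or.inr ⟨_, g, hP0, ?_, ?_, fun _ => ?_⟩
      · rw [r2_neg]
        simp only at e ⊢
        rw [e] at kR ⊢
        have : ((rs 13 (r2 a B m) : ℕ) : ZMod 13) = 0 := by rw [← kR]; simp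
        rw [rs_cast] at this
        symm
        apply rs_of
        push_cast
        rw [this]; simp
      · rw [y2_neg]; exact kS.symm
      · exact rs_neg13 b (by omega)
  · exact Or.inl ⟨_, g, hP0, kR.symm, kS.symm, fun h => absurd h (by simp only at e1 ⊢; omega)⟩
  · refine Or.inr ⟨_, g, hP0, ?_, ?_, fun h => ?_⟩
    · rw [r2_neg]
      simp only at e1 e2 ⊢
      symm
      apply rs_of
      have e3 : ((rs 13 (r2 a B m) * i % 13 : ℕ) : ZMod 13) * (P : ZMod 13) =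
          ((r2 a B m : ℤ) : ZMod 13) := by
        rw [ZMod.natCast_mod, Nat.cast_mul, rs_cast]
        linear_combination ((r2 a B m : ℤ) : ZMod 13) * h1'
      rw [Nat.cast_mul, Nat.cast_sub e2.le, ZMod.natCast_self]
      push_cast
      linear_combination (-1 : ZMod 13) * e3
    · rw [y2_neg]; exact kS.symm
    · simp only at e2 h
      omega

end Pool.Agent.Lib_helper84.P7
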